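import Mathlib

/-!
# MP_42b70f_co: a triangle-free graph with a sparsely joined perfect matching and no balanced
vertex split catching all its 4-cycles

The graph has 14 vertices, is 4-regular and has fifteen 4-cycles. It is triangle-free, its perfect
matching `{0,1}, {2,3}, ..., {12,13}` is sparsely joined, and for each of the 3432 vertex sets `A`
with seven elements some 4-cycle is not caught by `A`. So the answer to Q1 is no.
-/

set_option autoImplicit false

namespace Pool.Agent.Results.MP_42b70f_co.NoBalancedSplit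

/-- The perfect matching `M` is sparsely joined: for any two distinct edges `uv` and `xy` of `M`,
at most one of the four pairs `ux`, `uy`, `vx`, `vy` is an edge of `G` (any two of these pairs which
are edges of `G` coincide as positions). -/
def SparselyJoined {V : Type} (G : SimpleGraph V) (M : G.Subgraph) : Prop :=
  ∀ u v x y : V, M.Adj u v → M.Adj x y → s(u, v) ≠ s(x, y) →
    ∀ p q : Bool × Bool,
      G.Adj (if p.1 then u else v) (if p.2 then x else y) →
      G.Adj (if q.1 then u else v) (if q.2 then x else y) → p = q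

/-- `v₁ v₂ v₃ v₄ v₁` is a 4-cycle of `G`: four distinct vertices, consecutive ones adjacent. -/
def IsFourCycle {V : Type} (G : SimpleGraph V) (v₁ v₂ v₃ v₄ : V) : Prop :=
  G.Adj v₁ v₂ ∧ G.Adj v₂ v₃ ∧ G.Adj v₃ v₄ ∧ G.Adj v₄ v₁ ∧ v₁ ≠ v₃ ∧ v₂ ≠ v₄

/-- The 4-cycle `v₁ v₂ v₃ v₄ v₁` is caught by `A`: one of its two opposite pairs `{v₁, v₃}`,
`{v₂, v₄}` lies entirely inside `A` or entirely outside `A`. -/
def Caught {V : Type} (A : Finset V) (v₁ v₂ v₃ v₄ : V) : Prop :=
  (v₁ ∈ A ∧ v₃ ∈ A) ∨ (v₁ ∉ A ∧ v₃ ∉ A) ∨ (v₂ ∈ A ∧ v₄ ∈ A) ∨ (v₂ ∉ A ∧ v₄ ∉ A)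

/-- The adjacency table: bit `14 * i + j` says whether `i` and `j` are adjacent. -/
def tbl : ℕ := 27122495976202260651520686554094200951781839501744070478086

def adjB (i j : Fin 14) : Bool := tbl.testBit (14 * i.val + j.val)

/-- The graph. -/
def G : SimpleGraph (Fin 14) where
  Adj i j := adjB i j = true
  symm := ⟨by decide +kernel⟩
  loopless := ⟨by decide +kernel⟩

instance : DecidableRel G.Adj := fun i j => inferInstanceAs (Decidable (adjB i j = true))

/-- The partner in the perfect matching. -/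
def mt (i : Fin 14) : Fin 14 := ⟨(i.val ^^^ 1) % 14, Nat.mod_lt _ (by norm_num)⟩

theorem mt_adj : ∀ i : Fin 14, G.Adj i (mt i) := by decide +kernel

theorem mt_mt : ∀ i : Fin 14, mt (mt i) = i := by decide +kernel

/-- The perfect matching `{0,1}, {2,3}, ..., {12,13}`. -/
def M : G.Subgraph where
  verts := Set.univ
  Adj i j := j = mt i
  adj_sub := by
    intro i j h
    rw [h]
    exact mt_adj i
  edge_vert := fun _ => Set.mem_univ _
  symm := ⟨by
    intro i j h
    rw [h]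
    exact (mt_mt i).symm⟩

theorem M_perfect : M.IsPerfectMatching := by
  refine ⟨fun v _ => ⟨mt v, rfl, fun w hw => hw⟩, fun v => Set.mem_univ v⟩

theorem M_sparse : SparselyJoined G M := by
  have key : ∀ u x : Fin 14, x ≠ u → x ≠ mt u → ∀ p q : Bool × Bool,
      G.Adj (if p.1 then u else mt u) (if p.2 then x else mt x) →
      G.Adj (if q.1 then u else mt u) (if q.2 then x else mt x) → p = q := by
    decide +kernel
  intro u v x y huv hxy hne
  have h1 : v = mt u := huv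
  have h2 : y = mt x := hxy
  subst h1
  subst h2
  refine key u x ?_ ?_
  · intro h
    exact hne (by rw [h])
  · intro h
    refine hne ?_
    rw [h, mt_mt]
    exact Sym2.eq_swap

theorem triangle_free : G.CliqueFree 3 := by
  have key : ∀ a b c : Fin 14, ¬ (G.Adj a b ∧ G.Adj a c ∧ G.Adj b c) := by decide +kernel
  intro s hs
  obtain ⟨a, b, c, hab, hac, hbc, _⟩ := SimpleGraph.is3Clique_iff.1 hs
  exact key a b c ⟨hab, hac, hbc⟩

/-- The fifteen 4-cycles. -/
def cyc : List (ℕ × ℕ × ℕ × ℕ) :=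
  [(0, 1, 5, 8), (0, 1, 6, 2), (0, 2, 10, 11), (0, 8, 9, 11), (1, 5, 4, 12), (1, 5, 7, 6),
   (1, 6, 13, 12), (2, 3, 13, 6), (2, 6, 7, 10), (3, 4, 11, 9), (3, 4, 12, 13), (3, 9, 8, 13),
   (4, 11, 10, 12), (5, 7, 9, 8), (7, 9, 11, 10)]

def cnt (x : ℕ) : ℕ :=
  (x.testBit 0).toNat + (x.testBit 1).toNat + (x.testBit 2).toNat + (x.testBit 3).toNat +
  (x.testBit 4).toNat + (x.testBit 5).toNat + (x.testBit 6).toNat + (x.testBit 7).toNat +
  (x.testBit 8).toNat + (x.testBit 9).toNat + (x.testBit 10).toNat + (x.testBit 11).toNat +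
  (x.testBit 12).toNat + (x.testBit 13).toNat

/-- The 4-cycle `c` is not caught by the set with bit mask `x`. -/
def bad (x : ℕ) (c : ℕ × ℕ × ℕ × ℕ) : Bool :=
  (x.testBit c.1 != x.testBit c.2.2.1) && (x.testBit c.2.1 != x.testBit c.2.2.2)

def chk (x : ℕ) : Bool := (cnt x != 7) || cyc.any (bad x)

def allB (f : ℕ → Bool) : ℕ → Bool
  | 0 => true
  | k + 1 => f k && allB f k

theorem allB_spec (f : ℕ → Bool) (k : ℕ) (h : allB f k = true) : ∀ i < k, f i = true := by
  induction k with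
  | zero => intro i hi; omega
  | succ k ih =>
    simp only [allB, Bool.and_eq_true] at h
    intro i hi
    rcases Nat.lt_succ_iff_lt_or_eq.1 hi with h1 | h1
    · exact ih h.2 i h1
    · rw [h1]; exact h.1

theorem chk_all : allB (fun a => allB (fun b => chk (128 * a + b)) 128) 128 = true := by
  decide +kernel

theorem chk_lt (x : ℕ) (hx : x < 2 ^ 14) : chk x = true := by
  have h1 := allB_spec _ _ chk_all (x / 128) (by omega)
  have h2 := allB_spec _ _ h1 (x % 128) (Nat.mod_lt _ (by norm_num))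
  simpa [Nat.div_add_mod] using h2

theorem cyc_ok : ∀ c ∈ cyc, ∃ (h1 : c.1 < 14) (h2 : c.2.1 < 14) (h3 : c.2.2.1 < 14)
    (h4 : c.2.2.2 < 14), adjB ⟨c.1, h1⟩ ⟨c.2.1, h2⟩ = true ∧ adjB ⟨c.2.1, h2⟩ ⟨c.2.2.1, h3⟩ = true ∧
      adjB ⟨c.2.2.1, h3⟩ ⟨c.2.2.2, h4⟩ = true ∧ adjB ⟨c.2.2.2, h4⟩ ⟨c.1, h1⟩ = true ∧
      c.1 ≠ c.2.2.1 ∧ c.2.1 ≠ c.2.2.2 := by
  decide +kernel

theorem no_split (A : Finset (Fin 14)) (hA : A.card = 7) :
    ∃ v₁ v₂ v₃ v₄, IsFourCycle G v₁ v₂ v₃ v₄ ∧ ¬ Caught A v₁ v₂ v₃ v₄ := by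
  obtain ⟨x, hx, hbit⟩ : ∃ x : ℕ, x < 2 ^ 14 ∧ ∀ i : Fin 14, x.testBit i.val = decide (i ∈ A) :=
    ⟨Nat.ofBits fun i => decide (i ∈ A), Nat.ofBits_lt_two_pow _, fun i => by
      rw [Nat.testBit_ofBits_lt _ _ i.isLt]⟩
  have hc : cnt x = 7 := by
    rw [← hA]
    have h1 : A.card = ∑ i : Fin 14, (x.testBit i.val).toNat := by
      have h2 : A.card = ∑ i : Fin 14, if i ∈ A then 1 else 0 := by simp
      rw [h2]
      refine Finset.sum_congr rfl fun i _ => ?_
      rw [hbit i]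
      by_cases h : i ∈ A <;> simp [h]
    rw [h1]
    simp only [Fin.sum_univ_succ, Fin.sum_univ_zero]
    simp only [cnt, Fin.val_zero, Fin.val_succ]
    norm_num
    ring
  have hk := chk_lt x hx
  simp only [chk, hc, bne_self_eq_false, Bool.false_or, List.any_eq_true] at hk
  obtain ⟨c, hcm, hb⟩ := hk
  obtain ⟨h1, h2, h3, h4, a1, a2, a3, a4, d1, d2⟩ := cyc_ok c hcm
  refine ⟨⟨c.1, h1⟩, ⟨c.2.1, h2⟩, ⟨c.2.2.1, h3⟩, ⟨c.2.2.2, h4⟩,
    ⟨a1, a2, a3, a4, fun h => d1 (congrArg Fin.val h), fun h => d2 (congrArg Fin.val h)⟩, ?_⟩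
  have e1 := hbit ⟨c.1, h1⟩
  have e2 := hbit ⟨c.2.1, h2⟩
  have e3 := hbit ⟨c.2.2.1, h3⟩
  have e4 := hbit ⟨c.2.2.2, h4⟩
  simp only [bad, e1, e2, e3, e4, Bool.and_eq_true, bne_iff_ne, ne_eq, decide_eq_decide] at hb
  unfold Caught
  tauto

/-- The answer to Q1 is no: it is not true that every finite triangle-free graph with a sparsely
joined perfect matching has a vertex set `A` containing exactly half of the vertices such that
every 4-cycle of the graph is caught by `A`. -/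
theorem result :
    ¬ ∀ (V : Type) [Fintype V] (G : SimpleGraph V), G.CliqueFree 3 →
      (∃ M : G.Subgraph, M.IsPerfectMatching ∧ SparselyJoined G M) →
      ∃ A : Finset V, 2 * A.card = Fintype.card V ∧
        ∀ v₁ v₂ v₃ v₄ : V, IsFourCycle G v₁ v₂ v₃ v₄ → Caught A v₁ v₂ v₃ v₄ := by
  intro h
  obtain ⟨A, hA, hall⟩ := h (Fin 14) G triangle_free ⟨M, M_perfect, M_sparse⟩
  have h7 : A.card = 7 := by
    rw [Fintype.card_fin] at hA
    omega
  obtain ⟨v₁, v₂, v₃, v₄, hc, hn⟩ := no_split A h7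
  exact hn (hall v₁ v₂ v₃ v₄ hc)

end Pool.Agent.Results.MP_42b70f_co.NoBalancedSplit
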